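import Pool.Agent.Run7.h102.LS.Stm

/-!
# Project LS (helper102), piece RED: reduction mod 2
-/

set_option autoImplicit false

namespace Run7.h646.LS

open MvPolynomial Run7.h102.LS

section base

variable {R S : Type} [CommRing R] [CommRing S] {r : ℕ}

theorem ev_base (φ : R →+* S) (f : MvPolynomial (Fin r) R) (w : List (MvPolynomial (Fin r) R)) :
    ev (map φ f) (w.map (map φ)) = map φ (ev f w) := by
  unfold ev
  rw [aeval_map_algebraMap_aux φ f w]
where
  aeval_map_algebraMap_aux (φ : R →+* S) (f : MvPolynomial (Fin r) R)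
      (w : List (MvPolynomial (Fin r) R)) :
      aeval (fun i : Fin r => (w.map (map φ)).getD i 0) (map φ f) =
        map φ (aeval (fun i : Fin r => w.getD i 0) f) := by
    induction f using MvPolynomial.induction_on with
    | C a => simp [MvPolynomial.algebraMap_eq]
    | add p q hp hq => simp only [map_add, hp, hq]
    | mul_X p i hp =>
      simp only [map_mul, hp, map_X, aeval_X]
      congr 1
      rw [← map_zero (map φ : MvPolynomial (Fin r) R →+* MvPolynomial (Fin r) S), List.getD_map]

theorem Xs_base (φ : R →+* S) : (Xs R r).map (map φ) = Xs S r := by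
  unfold Xs
  rw [List.map_map]
  congr 1
  funext i
  simp

theorem sh_base (φ : R →+* S) (f : MvPolynomial (Fin r) R) (i : ℕ) :
    sh ((Xs S r).take i) ((Xs S r).drop i) (ev (map φ f)) =
      map φ (sh ((Xs R r).take i) ((Xs R r).drop i) (ev f)) := by
  rw [← Xs_base φ, ← List.map_take, ← List.map_drop, sh_map]
  have h := sh_hom (map φ : MvPolynomial (Fin r) R →+* MvPolynomial (Fin r) S).toAddMonoidHom
    ((Xs R r).take i) ((Xs R r).drop i) (ev f)
  refine Eq.trans ?_ h.symm
  congr 1
  funext w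
  exact ev_base φ f w

theorem sh_base' (φ : R →+* S) (f : MvPolynomial (Fin r) R) (i : ℕ) :
    sh ((Xs S r).take i) ((Xs S r).drop i) (fun w => ev (map φ f) (ps 0 w)) =
      map φ (sh ((Xs R r).take i) ((Xs R r).drop i) (fun w => ev f (ps 0 w))) := by
  rw [← Xs_base φ, ← List.map_take, ← List.map_drop, sh_map]
  have h := sh_hom (map φ : MvPolynomial (Fin r) R →+* MvPolynomial (Fin r) S).toAddMonoidHom
    ((Xs R r).take i) ((Xs R r).drop i) (fun w => ev f (ps 0 w))
  refine Eq.trans ?_ h.symm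
  congr 1
  funext w
  change ev (map φ f) (ps 0 (w.map (map φ))) = map φ (ev f (ps 0 w))
  rw [← ev_base, ← ps_map (map φ) (map_add _), map_zero]

theorem IsLS.base (φ : R →+* S) {f : MvPolynomial (Fin r) R} (h : IsLS f) : IsLS (map φ f) := by
  intro i h0 hi
  rw [sh_base, sh_base', (h i h0 hi).1, (h i h0 hi).2, map_zero]
  exact ⟨rfl, rfl⟩

theorem IsLS.of_base {φ : R →+* S} (hφ : Function.Injective φ) {f : MvPolynomial (Fin r) R}
    (h : IsLS (map φ f)) : IsLS f := by
  intro i h0 hi
  have h1 := (h i h0 hi).1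
  have h2 := (h i h0 hi).2
  rw [sh_base] at h1
  rw [sh_base'] at h2
  have hinj := map_injective (σ := Fin r) φ hφ
  exact ⟨hinj (by rw [h1, map_zero]), hinj (by rw [h2, map_zero])⟩

theorem hom_of_base {φ : R →+* S} (hφ : Function.Injective φ) {f : MvPolynomial (Fin r) R} {n : ℕ}
    (h : (map φ f).IsHomogeneous n) : f.IsHomogeneous n := by
  intro d hd
  refine h ?_
  rw [coeff_map]
  exact fun h0 => hd (hφ (by rw [h0, map_zero]))

end base

theorem mem_D_base {R S : Type} [CommRing R] [CommRing S] {r n : ℕ} (φ : R →+* S)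
    {f : MvPolynomial (Fin r) R} (h : f ∈ D R r n) : map φ f ∈ D S r n :=
  ⟨h.1.map φ, IsLS.base φ h.2⟩

theorem mem_D_of_base {R S : Type} [CommRing R] [CommRing S] {r n : ℕ} {φ : R →+* S}
    (hφ : Function.Injective φ) {f : MvPolynomial (Fin r) R} (h : map φ f ∈ D S r n) :
    f ∈ D R r n :=
  ⟨hom_of_base hφ h.1, IsLS.of_base hφ h.2⟩

theorem finite_D (R : Type) [CommRing R] [IsNoetherianRing R] (r n : ℕ) :
    Module.Finite R (D R r n) := by
  have h1 : (homogeneousSubmodule (Fin r) R n).FG := homogeneousSubmodule_fg _ _ n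
  have : Module.Finite R (homogeneousSubmodule (Fin r) R n) := Module.Finite.iff_fg.2 h1
  have h2 : D R r n ≤ homogeneousSubmodule (Fin r) R n := fun f hf => hf.1
  exact Module.Finite.of_injective (Submodule.inclusion h2) (Submodule.inclusion_injective h2)

/-- a rational polynomial times a nonzero integer is integral -/
theorem clear_denom {r : ℕ} (f : MvPolynomial (Fin r) ℚ) :
    ∃ (N : ℤ) (z : MvPolynomial (Fin r) ℤ), N ≠ 0 ∧ map (Int.castRingHom ℚ) z = (N : ℚ) • f := by
  obtain ⟨⟨N, hN⟩, h⟩ := IsLocalization.exist_integer_multiples (nonZeroDivisors ℤ) f.support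
    (fun d => coeff d f)
  have h1 : (N : ℚ) • f ∈ Set.range (map (Int.castRingHom ℚ) :
      MvPolynomial (Fin r) ℤ →+* MvPolynomial (Fin r) ℚ) := by
    rw [mem_range_map_iff_coeffs_subset]
    intro c hc
    rw [Finset.mem_coe, mem_coeffs_iff] at hc
    obtain ⟨d, hd, rfl⟩ := hc
    have hd' : d ∈ f.support := support_smul hd
    obtain ⟨y, hy⟩ := h d hd'
    refine ⟨y, ?_⟩
    rw [coeff_smul]
    simp only [zsmul_eq_mul, algebraMap_int_eq] at hy
    rw [hy]
    rfl
  obtain ⟨z, hz⟩ := h1
  exact ⟨N, z, nonZeroDivisors.ne_zero hN, hz⟩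

theorem t_RED : S_RED := by
  intro r n
  have := finite_D ℤ r n
  have := finite_D K r n
  have := finite_D ℚ r n
  -- a basis of the lattice
  let ι := Module.Free.ChooseBasisIndex ℤ (D ℤ r n)
  let b : Module.Basis ι ℤ (D ℤ r n) := Module.Free.chooseBasis ℤ (D ℤ r n)
  let vQ : ι → D ℚ r n := fun i => ⟨map (Int.castRingHom ℚ) (b i).1, mem_D_base _ (b i).2⟩
  let vK : ι → D K r n := fun i => ⟨map (Int.castRingHom K) (b i).1, mem_D_base _ (b i).2⟩
  have hQ : Module.finrank ℚ (D ℚ r n) ≤ Fintype.card ι := by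
    have hspan : Submodule.span ℚ (Set.range vQ) = ⊤ := by
      rw [eq_top_iff]
      rintro ⟨f, hf⟩ -
      obtain ⟨N, z, hN, hz⟩ := clear_denom f
      have hzD : z ∈ D ℤ r n := by
        refine mem_D_of_base (φ := Int.castRingHom ℚ) Int.cast_injective ?_
        rw [hz]
        exact (D ℚ r n).smul_mem _ hf
      have hrep := b.sum_repr ⟨z, hzD⟩
      have h1 : map (Int.castRingHom ℚ) z =
          ∑ i, ((b.repr ⟨z, hzD⟩ i : ℤ) : ℚ) • (vQ i).1 := by
        have h2 := congrArg (fun t : D ℤ r n => map (Int.castRingHom ℚ) t.1) hrep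
        simp only at h2
        rw [← h2]
        simp only [AddSubmonoidClass.coe_finsetSum, SetLike.val_smul, map_sum]
        refine Finset.sum_congr rfl fun i _ => ?_
        rw [zsmul_eq_mul, map_mul, map_intCast, ← zsmul_eq_mul, Int.cast_smul_eq_zsmul]
      have h3 : (⟨f, hf⟩ : D ℚ r n) =
          (N : ℚ)⁻¹ • ∑ i, ((b.repr ⟨z, hzD⟩ i : ℤ) : ℚ) • vQ i := by
        apply Subtype.ext
        rw [SetLike.val_smul, AddSubmonoidClass.coe_finsetSum]
        simp only [SetLike.val_smul]
        rw [← h1, hz, smul_smul, inv_mul_cancel₀ (by exact_mod_cast hN), one_smul]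
      rw [h3]
      exact Submodule.smul_mem _ _ (Submodule.sum_mem _ fun i _ =>
        Submodule.smul_mem _ _ (Submodule.subset_span ⟨i, rfl⟩))
    calc Module.finrank ℚ (D ℚ r n) = Module.finrank ℚ (⊤ : Submodule ℚ (D ℚ r n)) :=
          (_root_.finrank_top ℚ _).symm
      _ = Module.finrank ℚ (Submodule.span ℚ (Set.range vQ)) := by rw [hspan]
      _ ≤ Fintype.card ι := finrank_range_le_card vQ
  have hK : LinearIndependent K vK := by
    rw [Fintype.linearIndependent_iff]
    intro g hg i
    choose c hc using fun i => ZMod.intCast_surjective (g i)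
    set z : D ℤ r n := ∑ i, c i • b i with hz
    have h1 : map (Int.castRingHom K) z.1 = 0 := by
      have h2 := congrArg Subtype.val hg
      simp only [AddSubmonoidClass.coe_finsetSum, SetLike.val_smul, ZeroMemClass.coe_zero] at h2
      rw [← h2, hz]
      simp only [AddSubmonoidClass.coe_finsetSum, SetLike.val_smul, map_sum]
      refine Finset.sum_congr rfl fun i _ => ?_
      rw [← hc i, zsmul_eq_mul, map_mul, map_intCast, ← zsmul_eq_mul, Int.cast_smul_eq_zsmul]
    have h3 : C ((2 : ℕ) : ℤ) ∣ z.1 := (C_dvd_iff_zmod 2 z.1).2 h1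
    obtain ⟨y, hy⟩ := h3
    have hyD : y ∈ D ℤ r n := by
      refine mem_D_of_base (φ := Int.castRingHom ℚ) Int.cast_injective ?_
      have h4 : map (Int.castRingHom ℚ) y = (2 : ℚ)⁻¹ • map (Int.castRingHom ℚ) z.1 := by
        rw [hy, map_mul, map_C, smul_eq_C_mul, ← mul_assoc, ← C_mul]
        norm_num
      rw [h4]
      exact (D ℚ r n).smul_mem _ (mem_D_base _ z.2)
    have h5 : z = (2 : ℤ) • (⟨y, hyD⟩ : D ℤ r n) := by
      apply Subtype.ext
      rw [SetLike.val_smul, hy, smul_eq_C_mul]
      norm_num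
    have h6 : c i = 2 * b.repr ⟨y, hyD⟩ i := by
      have h7 := congrArg (fun t => b.repr t i) h5
      simp only [map_smul, Finsupp.smul_apply, smul_eq_mul] at h7
      rw [← h7, hz, b.repr_sum_self]
    rw [← hc i, h6]
    push_cast
    have : (2 : K) = 0 := by decide
    rw [this, zero_mul]
  exact hQ.trans hK.fintype_card_le_finrank

end Run7.h646.LS
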